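import Mathlib

/-!
# Delsarte cliques: families of cliques with constant outside degree

`Fam G K e F`: `F` is a finite family of cliques of size `K` of the graph `G` such that every vertex
outside a clique of the family has exactly `e` neighbours in it.
-/

namespace Pool.Agent.DCQ

open Finset

variable {V : Type*} [Fintype V] [DecidableEq V]

/-- cliques of size `K`, every outside vertex has exactly `e` neighbours in the clique -/
structure Fam (G : SimpleGraph V) [DecidableRel G.Adj] (K e : ℕ) (F : Finset (Finset V)) : Prop where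
  clique : ∀ C ∈ F, G.IsClique (C : Set V)
  card : ∀ C ∈ F, C.card = K
  reg : ∀ C ∈ F, ∀ w ∉ C, (C.filter (G.Adj w)).card = e

variable {G : SimpleGraph V} [DecidableRel G.Adj] {K e : ℕ} {F : Finset (Finset V)}

theorem Fam.exists_not_mem (h : Fam G K e F) {C D : Finset V} (hC : C ∈ F) (hD : D ∈ F)
    (hne : C ≠ D) : ∃ w ∈ D, w ∉ C := by
  by_contra hcon
  push Not at hcon
  exact hne (Finset.eq_of_subset_of_card_le hcon (by rw [h.card C hC, h.card D hD])).symm

theorem Fam.inter_union_le (h : Fam G K e F) {A B D : Finset V} (hA : A ∈ F) (hB : B ∈ F)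
    (hD : D ∈ F) {w : V} (hwB : w ∈ B) (hwD : w ∈ D) (hwA : w ∉ A) :
    (A ∩ (B ∪ D)).card ≤ e := by
  rw [← h.reg A hA w hwA]
  apply Finset.card_le_card
  intro y hy
  rw [Finset.mem_inter, Finset.mem_union] at hy
  rw [Finset.mem_filter]
  refine ⟨hy.1, ?_⟩
  have hne : w ≠ y := fun h' => hwA (h' ▸ hy.1)
  rcases hy.2 with h1 | h1
  · exact h.clique B hB hwB h1 hne
  · exact h.clique D hD hwD h1 hne

theorem Fam.inter_le (h : Fam G K e F) {A B : Finset V} (hA : A ∈ F) (hB : B ∈ F)
    (hne : A ≠ B) : (A ∩ B).card ≤ e := by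
  obtain ⟨w, hw, hw'⟩ := h.exists_not_mem hA hB hne
  have := h.inter_union_le hA hB hB hw hw hw'
  rwa [Finset.union_self] at this

theorem Fam.two_le (h : Fam G K e F) {A B : Finset V} (hA : A ∈ F) (hB : B ∈ F)
    (hne : A ≠ B) : 2 * K ≤ (A ∪ B).card + e := by
  have h1 := Finset.card_union_add_card_inter A B
  have h2 := h.inter_le hA hB hne
  rw [h.card A hA, h.card B hB] at h1
  omega

theorem Fam.three_le (h : Fam G K e F) {A B D : Finset V} (hA : A ∈ F) (hB : B ∈ F)
    (hD : D ∈ F) (hAB : A ≠ B) (hAD : A ≠ D) (hBD : B ≠ D) :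
    3 * K ≤ (A ∪ B ∪ D).card + 2 * e := by
  have h1 := Finset.card_union_add_card_inter (A ∪ B) D
  have h2 := Finset.card_union_add_card_inter A B
  rw [h.card A hA, h.card B hB] at h2
  rw [h.card D hD] at h1
  by_cases hc : ∃ w ∈ A ∩ B, w ∉ D
  · obtain ⟨w, hw, hwD⟩ := hc
    rw [Finset.mem_inter] at hw
    have h3 := h.inter_union_le hD hA hB hw.1 hw.2 hwD
    have h4 := h.inter_le hA hB hAB
    rw [Finset.inter_comm] at h3
    omega
  · push Not at hc
    have h3 := h.inter_le hA hD hAD
    have h4 := h.inter_le hB hD hBD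
    have h5 := Finset.card_union_add_card_inter (A ∩ D) (B ∩ D)
    have h6 : (A ∪ B) ∩ D = (A ∩ D) ∪ (B ∩ D) := Finset.union_inter_distrib_right A B D
    have h7 : (A ∩ D) ∩ (B ∩ D) = A ∩ B := by
      ext y
      simp only [Finset.mem_inter]
      constructor
      · rintro ⟨⟨h8, _⟩, h9, _⟩
        exact ⟨h8, h9⟩
      · rintro ⟨h8, h9⟩
        have := hc y (Finset.mem_inter.2 ⟨h8, h9⟩)
        exact ⟨⟨h8, this⟩, h9, this⟩
    rw [h7] at h5
    rw [h6] at h1
    omega

/-! ### common closed neighbourhoods -/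

/-- the common closed neighbourhood of a set of vertices -/
def nb (G : SimpleGraph V) [DecidableRel G.Adj] (T : Finset V) : Finset V :=
  Finset.univ.filter fun w => ∀ t ∈ T, w = t ∨ G.Adj w t

theorem mem_nb {T : Finset V} {w : V} : w ∈ nb G T ↔ ∀ t ∈ T, w = t ∨ G.Adj w t := by
  unfold nb
  rw [Finset.mem_filter]
  exact ⟨fun h => h.2, fun h => ⟨Finset.mem_univ _, h⟩⟩

theorem Fam.sub_nb (h : Fam G K e F) {C T : Finset V} (hC : C ∈ F) (hT : T ⊆ C) : C ⊆ nb G T := by
  intro w hw
  rw [mem_nb]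
  intro t ht
  by_cases hwt : w = t
  · exact Or.inl hwt
  · exact Or.inr (h.clique C hC hw (hT ht) hwt)

theorem nb_insert (T : Finset V) (y : V) :
    nb G (insert y T) = (nb G T).filter fun w => w = y ∨ G.Adj w y := by
  ext w
  rw [Finset.mem_filter, mem_nb, mem_nb]
  constructor
  · intro h
    exact ⟨fun t ht => h t (Finset.mem_insert_of_mem ht), h y (Finset.mem_insert_self _ _)⟩
  · rintro ⟨h1, h2⟩ t ht
    rcases Finset.mem_insert.1 ht with rfl | ht
    · exact h2
    · exact h1 t ht

theorem nb_empty : nb G (∅ : Finset V) = Finset.univ := by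
  ext w
  simp [mem_nb]

/-- the sum of the sizes of the common closed neighbourhoods of `T + y`, `y ∈ C` -/
theorem Fam.sum_nb (h : Fam G K e F) {C T : Finset V} (hC : C ∈ F) (hT : T ⊆ C) :
    ∑ y ∈ C, (nb G (insert y T)).card = K * K + ((nb G T).card - K) * e := by
  have hsub := h.sub_nb hC hT
  have h1 : ∀ y, (nb G (insert y T)).card = ∑ w ∈ nb G T, if w = y ∨ G.Adj w y then 1 else 0 := by
    intro y
    rw [nb_insert, Finset.card_filter]
  rw [Finset.sum_congr rfl fun y _ => h1 y, Finset.sum_comm]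
  rw [← Finset.sum_sdiff hsub]
  have h2 : ∑ w ∈ C, ∑ y ∈ C, (if w = y ∨ G.Adj w y then 1 else 0) = K * K := by
    have h3 : ∀ w ∈ C, ∑ y ∈ C, (if w = y ∨ G.Adj w y then 1 else 0) = K := by
      intro w hw
      rw [← Finset.card_filter, Finset.filter_true_of_mem, h.card C hC]
      intro y hy
      by_cases hwy : w = y
      · exact Or.inl hwy
      · exact Or.inr (h.clique C hC hw hy hwy)
    rw [Finset.sum_congr rfl h3, Finset.sum_const, smul_eq_mul, h.card C hC]
  have h4 : ∑ w ∈ nb G T \ C, ∑ y ∈ C, (if w = y ∨ G.Adj w y then 1 else 0) =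
      ((nb G T).card - K) * e := by
    have h5 : ∀ w ∈ nb G T \ C, ∑ y ∈ C, (if w = y ∨ G.Adj w y then 1 else 0) = e := by
      intro w hw
      rw [Finset.mem_sdiff] at hw
      rw [← Finset.card_filter, ← h.reg C hC w hw.2]
      congr 1
      apply Finset.filter_congr
      intro y hy
      constructor
      · rintro (rfl | h6)
        · exact absurd hy hw.2
        · exact h6
      · exact Or.inr
    rw [Finset.sum_congr rfl h5, Finset.sum_const, smul_eq_mul, Finset.card_sdiff_of_subset hsub,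
      h.card C hC]
  rw [h2, h4, add_comm]

/-! ### counting cliques -/

/-- the cliques of the family that contain `T` -/
def up (F : Finset (Finset V)) (T : Finset V) : Finset (Finset V) := F.filter fun C => T ⊆ C

theorem mem_up {T C : Finset V} : C ∈ up F T ↔ C ∈ F ∧ T ⊆ C := Finset.mem_filter

theorem up_insert (T : Finset V) (y : V) : up F (insert y T) = (up F T).filter fun C => y ∈ C := by
  ext C
  rw [Finset.mem_filter, mem_up, mem_up, Finset.insert_subset_iff]
  tauto

theorem up_empty : up F ∅ = F := by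
  ext C
  simp [mem_up]

/-- double counting -/
theorem Fam.sum_up (h : Fam G K e F) (T : Finset V) (f : V → ℝ) :
    ∑ C ∈ up F T, ∑ y ∈ C, f y = ∑ y ∈ nb G T, ((up F (insert y T)).card : ℝ) * f y := by
  have h1 : ∀ C ∈ up F T, ∑ y ∈ C, f y = ∑ y ∈ nb G T, if y ∈ C then f y else 0 := by
    intro C hC
    rw [mem_up] at hC
    rw [← Finset.sum_filter]
    congr 1
    ext y
    rw [Finset.mem_filter]
    exact ⟨fun hy => ⟨h.sub_nb hC.1 hC.2 hy, hy⟩, fun hy => hy.2⟩
  rw [Finset.sum_congr rfl h1, Finset.sum_comm]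
  refine Finset.sum_congr rfl fun y _ => ?_
  rw [← Finset.sum_filter, ← up_insert, Finset.sum_const, nsmul_eq_mul]

end Pool.Agent.DCQ
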