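import Mathlib

/-!
# Delsarte cliques: the definition
-/

namespace Pool.Agent.DCQ

/-- `C` is a Delsarte clique of the graph `G` of valency `k`: a clique with exactly `1 - k / s`
vertices, where `s` is the smallest eigenvalue of the adjacency matrix of `G`. -/
def IsDelsarteClique {V : Type*} [Fintype V] [DecidableEq V] (G : SimpleGraph V)
    [DecidableRel G.Adj] (k : ℕ) (C : Finset V) : Prop :=
  G.IsClique (C : Set V) ∧ ∃ s : ℝ, IsLeast (spectrum ℝ (G.adjMatrix ℝ)) s ∧
    (C.card : ℝ) = 1 - k / s

end Pool.Agent.DCQ
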