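import Pool.Agent.DCQ.Base

/-!
# Delsarte cliques: the entropy bound for the number of cliques
-/

namespace Pool.Agent.DCQ

open Finset

/-- the entropy of a distribution on `s` is at most the logarithm of the size of `s` -/
theorem ent {ι : Type*} (s : Finset ι) (m : ι → ℕ) (P : ℝ) (hP : 0 < P)
    (hs : ∑ y ∈ s, (m y : ℝ) = P) :
    P * Real.log (P / s.card) ≤ ∑ y ∈ s, (m y : ℝ) * Real.log (m y) := by
  have hne : s.Nonempty := by
    by_contra h
    rw [Finset.not_nonempty_iff_eq_empty] at h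
    rw [h, Finset.sum_empty] at hs
    exact hP.ne hs
  have hc : (0 : ℝ) < s.card := by exact_mod_cast hne.card_pos
  have h1 : ∀ y ∈ s, (m y : ℝ) * Real.log (P / s.card) + ((m y : ℝ) - P / s.card) ≤
      (m y : ℝ) * Real.log (m y) := by
    intro y _
    by_cases h0 : m y = 0
    · rw [h0, Nat.cast_zero, zero_mul, zero_mul, zero_add, zero_sub]
      have : 0 ≤ P / s.card := by positivity
      linarith
    · have hm : (0 : ℝ) < m y := by positivity
      have h2 := Real.one_sub_inv_le_log_of_pos (x := (m y : ℝ) / (P / s.card)) (by positivity)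
      rw [Real.log_div hm.ne' (by positivity), inv_div] at h2
      have h3 := mul_le_mul_of_nonneg_left h2 hm.le
      have h4 : (m y : ℝ) * (1 - P / s.card / (m y)) = m y - P / s.card := by
        field_simp
      rw [h4] at h3
      linarith
  have h5 := Finset.sum_le_sum h1
  rw [Finset.sum_add_distrib, ← Finset.sum_mul, hs, Finset.sum_sub_distrib, hs, Finset.sum_const,
    nsmul_eq_mul] at h5
  have h6 : (s.card : ℝ) * (P / s.card) = P := by field_simp
  rw [h6] at h5
  linarith

variable {V : Type*} [Fintype V] [DecidableEq V]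
variable {G : SimpleGraph V} [DecidableRel G.Adj] {K e : ℕ} {F : Finset (Finset V)}

/-- logarithm of the number of cliques containing `T` -/
noncomputable def lc (F : Finset (Finset V)) (T : Finset V) : ℝ := Real.log ((up F T).card : ℝ)

/-- relative excess of the common closed neighbourhood of `T` -/
noncomputable def dl (G : SimpleGraph V) [DecidableRel G.Adj] (K : ℕ) (T : Finset V) : ℝ :=
  ((nb G T).card : ℝ) / K - 1

theorem Fam.step (h : Fam G K e F) (hK : 0 < K) {T : Finset V} (hT : 0 < (up F T).card) (c : ℝ)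
    (hc : ∀ C ∈ up F T, ∑ y ∈ C, lc F (insert y T) ≤ K * c) :
    lc F T ≤ Real.log (1 + dl G K T) + c := by
  have hK' : (0 : ℝ) < K := by exact_mod_cast hK
  have hT' : (0 : ℝ) < (up F T).card := by exact_mod_cast hT
  have h1 := h.sum_up T fun y => lc F (insert y T)
  have h2 := h.sum_up T fun _ => 1
  have h3 : ∑ C ∈ up F T, ∑ _y ∈ C, (1 : ℝ) = (up F T).card * K := by
    have h4 : ∀ C ∈ up F T, ∑ _y ∈ C, (1 : ℝ) = K := by
      intro C hC
      rw [Finset.sum_const, nsmul_eq_mul, mul_one, h.card C (mem_up.1 hC).1]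
    rw [Finset.sum_congr rfl h4, Finset.sum_const, nsmul_eq_mul]
  rw [h3] at h2
  simp only [mul_one] at h2
  have h5 := ent (nb G T) (fun y => (up F (insert y T)).card) ((up F T).card * K) (by positivity)
    h2.symm
  have h6 : ∑ y ∈ nb G T, ((up F (insert y T)).card : ℝ) * Real.log ((up F (insert y T)).card) =
      ∑ C ∈ up F T, ∑ y ∈ C, lc F (insert y T) := h1.symm
  rw [h6] at h5
  have h7 : ∑ C ∈ up F T, ∑ y ∈ C, lc F (insert y T) ≤ ∑ _C ∈ up F T, (K : ℝ) * c :=
    Finset.sum_le_sum hc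
  rw [Finset.sum_const, nsmul_eq_mul] at h7
  have hn : (0 : ℝ) < (nb G T).card := by
    obtain ⟨C, hC⟩ := Finset.card_pos.1 hT
    have h8 := Finset.card_le_card (h.sub_nb (mem_up.1 hC).1 (mem_up.1 hC).2)
    rw [h.card C (mem_up.1 hC).1] at h8
    have : 0 < (nb G T).card := by omega
    exact_mod_cast this
  have h9 : Real.log ((up F T).card * K / (nb G T).card) = lc F T - Real.log (1 + dl G K T) := by
    have h10 : 1 + dl G K T = (nb G T).card / K := by
      unfold dl
      ring
    rw [h10, Real.log_div (by positivity) hn.ne', Real.log_mul hT'.ne' hK'.ne',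
      Real.log_div hn.ne' hK'.ne']
    unfold lc
    ring
  rw [h9] at h5
  have h11 : ((up F T).card : ℝ) * K * (lc F T - Real.log (1 + dl G K T)) ≤
      (up F T).card * K * c := by
    calc _ ≤ _ := h5
      _ ≤ _ := h7
      _ = _ := by ring
  have h12 := le_of_mul_le_mul_left h11 (by positivity)
  linarith

theorem Fam.dl_nonneg (h : Fam G K e F) (hK : 0 < K) {T : Finset V} (hT : 0 < (up F T).card) :
    0 ≤ dl G K T := by
  obtain ⟨C, hC⟩ := Finset.card_pos.1 hT
  have h8 := Finset.card_le_card (h.sub_nb (mem_up.1 hC).1 (mem_up.1 hC).2)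
  rw [h.card C (mem_up.1 hC).1] at h8
  have h9 : (K : ℝ) ≤ (nb G T).card := by exact_mod_cast h8
  have hK' : (0 : ℝ) < K := by exact_mod_cast hK
  unfold dl
  rw [sub_nonneg, le_div_iff₀ hK', one_mul]
  exact h9

theorem up_pos {T C : Finset V} (hC : C ∈ up F T) {y : V} (hy : y ∈ C) :
    0 < (up F (insert y T)).card := by
  rw [Finset.card_pos]
  refine ⟨C, ?_⟩
  rw [mem_up, Finset.insert_subset_iff]
  exact ⟨(mem_up.1 hC).1, hy, (mem_up.1 hC).2⟩

/-- the mean of the relative excess -/
theorem Fam.sum_dl (h : Fam G K e F) (hK : 0 < K) {C T : Finset V} (hC : C ∈ up F T) :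
    ∑ y ∈ C, dl G K (insert y T) = K * ((e : ℝ) / K * dl G K T) := by
  have hK' : (0 : ℝ) < K := by exact_mod_cast hK
  have h1 := h.sum_nb (mem_up.1 hC).1 (mem_up.1 hC).2
  have h8 := Finset.card_le_card (h.sub_nb (mem_up.1 hC).1 (mem_up.1 hC).2)
  rw [h.card C (mem_up.1 hC).1] at h8
  have h2 : ∑ y ∈ C, ((nb G (insert y T)).card : ℝ) = K * K + ((nb G T).card - K) * e := by
    have h3 := congrArg (Nat.cast : ℕ → ℝ) h1
    rw [Nat.cast_sum, Nat.cast_add, Nat.cast_mul, Nat.cast_mul, Nat.cast_sub h8] at h3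
    exact h3
  unfold dl
  rw [Finset.sum_sub_distrib, ← Finset.sum_div, h2, Finset.sum_const, nsmul_eq_mul,
    h.card C (mem_up.1 hC).1]
  field_simp
  ring

/-- two cliques through `T` -/
theorem Fam.dl_two (h : Fam G K e F) (hK : 0 < K) {T : Finset V} (hT : 2 ≤ (up F T).card) :
    1 - (e : ℝ) / K ≤ dl G K T := by
  have hK' : (0 : ℝ) < K := by exact_mod_cast hK
  obtain ⟨A, hA, B, hB, hAB⟩ := Finset.one_lt_card.1 (by omega : 1 < (up F T).card)
  rw [mem_up] at hA hB
  have h1 := h.two_le hA.1 hB.1 hAB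
  have h2 : A ∪ B ⊆ nb G T := Finset.union_subset (h.sub_nb hA.1 hA.2) (h.sub_nb hB.1 hB.2)
  have h3 := Finset.card_le_card h2
  have h4 : 2 * K ≤ (nb G T).card + e := by omega
  have h5 : 2 * (K : ℝ) ≤ (nb G T).card + e := by exact_mod_cast h4
  unfold dl
  rw [← sub_nonneg]
  have h6 : (nb G T).card / (K : ℝ) - 1 - (1 - (e : ℝ) / K) = ((nb G T).card + e - 2 * K) / K := by
    field_simp
    ring
  rw [h6]
  exact div_nonneg (by linarith) hK'.le

/-- three cliques through `T` -/
theorem Fam.dl_three (h : Fam G K e F) (he : 2 * e < K) {T : Finset V}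
    (hT : 3 ≤ (up F T).card) : 1 < dl G K T := by
  have hK : 0 < K := by omega
  have hK' : (0 : ℝ) < K := by exact_mod_cast hK
  obtain ⟨A, hA, B, hB, D, hD, hAB, hAD, hBD⟩ := Finset.two_lt_card.1 (by omega : 2 < (up F T).card)
  rw [mem_up] at hA hB hD
  have h1 := h.three_le hA.1 hB.1 hD.1 hAB hAD hBD
  have h2 : A ∪ B ∪ D ⊆ nb G T := Finset.union_subset
    (Finset.union_subset (h.sub_nb hA.1 hA.2) (h.sub_nb hB.1 hB.2)) (h.sub_nb hD.1 hD.2)
  have h3 := Finset.card_le_card h2
  have h4 : 2 * K < (nb G T).card := by omega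
  have h5 : 2 * (K : ℝ) < (nb G T).card := by exact_mod_cast h4
  unfold dl
  rw [lt_sub_iff_add_lt, lt_div_iff₀ hK']
  linarith

theorem log_two_mul {x : ℝ} (hx : 1 < x) : Real.log (1 + x) < x * Real.log 2 := by
  have h1 := one_add_mul_self_lt_rpow_one_add (s := 1) (by norm_num) (by norm_num) hx
  rw [mul_one] at h1
  have h2 : (1 : ℝ) + 1 = 2 := by norm_num
  rw [h2] at h1
  have h3 := Real.log_lt_log (by linarith) h1
  rwa [Real.log_rpow (by norm_num)] at h3

/-- the linear bound -/
theorem Fam.base (h : Fam G K e F) (he : 2 * e < K) {T : Finset V} (hT : 0 < (up F T).card) :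
    lc F T ≤ Real.log 2 / (1 - (e : ℝ) / K) * dl G K T := by
  have hK : 0 < K := by omega
  have hK' : (0 : ℝ) < K := by exact_mod_cast hK
  have he' : (e : ℝ) / K < 1 := by
    rw [div_lt_one hK']
    have : e < K := by omega
    exact_mod_cast this
  have hθ : 0 < 1 - (e : ℝ) / K := by linarith
  set a := Real.log 2 / (1 - (e : ℝ) / K) with ha
  have hlog2 : 0 < Real.log 2 := Real.log_pos (by norm_num)
  have ha0 : 0 < a := div_pos hlog2 hθ
  have haθ : a * (1 - (e : ℝ) / K) = Real.log 2 := by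
    rw [ha]
    exact div_mul_cancel₀ _ hθ.ne'
  by_contra hcon
  push Not at hcon
  -- a maximal counterexample
  obtain ⟨S, hS, hmax⟩ := Finset.exists_max_image
    (Finset.univ.filter fun T : Finset V => 0 < (up F T).card)
    (fun T => lc F T - a * dl G K T) ⟨T, Finset.mem_filter.2 ⟨Finset.mem_univ _, hT⟩⟩
  rw [Finset.mem_filter] at hS
  have hS0 := hS.2
  have hgS : 0 < lc F S - a * dl G K S := by
    have h1 := hmax T (Finset.mem_filter.2 ⟨Finset.mem_univ _, hT⟩)
    linarith
  have hd0 := h.dl_nonneg hK hS0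
  have hcard : (up F S).card = 1 ∨ (up F S).card = 2 ∨ 3 ≤ (up F S).card := by omega
  rcases hcard with h1 | h2 | h3
  · have h4 : lc F S = 0 := by
      unfold lc
      rw [h1, Nat.cast_one, Real.log_one]
    rw [h4] at hgS
    nlinarith [mul_nonneg ha0.le hd0]
  · have h4 : lc F S = Real.log 2 := by
      unfold lc
      rw [h2]
      norm_num
    have h5 := h.dl_two hK (T := S) (by omega)
    have h6 := mul_le_mul_of_nonneg_left h5 ha0.le
    rw [haθ] at h6
    rw [h4] at hgS
    linarith
  · have h5 := h.dl_three he h3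
    have h6 : lc F S ≤ Real.log (1 + dl G K S) +
        ((lc F S - a * dl G K S) + a * ((e : ℝ) / K * dl G K S)) := by
      apply h.step hK hS0
      intro C hC
      have h7 : ∀ y ∈ C, lc F (insert y S) ≤
          (lc F S - a * dl G K S) + a * dl G K (insert y S) := by
        intro y hy
        have h8 := hmax (insert y S) (Finset.mem_filter.2 ⟨Finset.mem_univ _, up_pos hC hy⟩)
        linarith
      refine (Finset.sum_le_sum h7).trans (le_of_eq ?_)
      rw [Finset.sum_add_distrib, ← Finset.mul_sum, h.sum_dl hK hC, Finset.sum_const, nsmul_eq_mul,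
        h.card C (mem_up.1 hC).1]
      ring
    have h9 := log_two_mul h5
    have h10 : a * dl G K S - a * ((e : ℝ) / K * dl G K S) = dl G K S * Real.log 2 := by
      rw [← haθ]
      ring
    linarith

/-- the iterated bound -/
noncomputable def Phi (ε a : ℝ) : ℕ → ℝ → ℝ
  | 0, x => a * x
  | m + 1, x => Real.log (1 + x) + Phi ε a m (ε * x)

theorem Phi_concave {ε a : ℝ} (hε : 0 ≤ ε) (m : ℕ) : ConcaveOn ℝ (Set.Ici 0) (Phi ε a m) := by
  induction m with
  | zero => exact (LinearMap.mulLeft ℝ a).concaveOn (convex_Ici 0)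
  | succ m ih =>
    have h1 : ConcaveOn ℝ (Set.Ici (0 : ℝ)) (fun x => Real.log (1 + x)) := by
      have h2 := (strictConcaveOn_log_Ioi.concaveOn).translate_right (c := 1)
      refine h2.subset ?_ (convex_Ici 0)
      intro x hx
      rw [Set.mem_Ici] at hx
      show 0 < 1 + x
      linarith
    have h3 : ConcaveOn ℝ (Set.Ici (0 : ℝ)) (fun x => Phi ε a m (ε * x)) := by
      have h4 := ih.comp_linearMap (LinearMap.mulLeft ℝ ε)
      refine h4.subset ?_ (convex_Ici 0)
      intro x hx
      rw [Set.mem_Ici] at hx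
      show 0 ≤ ε * x
      positivity
    exact h1.add h3

theorem Fam.lc_le (h : Fam G K e F) (he : 2 * e < K) (m : ℕ) {T : Finset V}
    (hT : 0 < (up F T).card) :
    lc F T ≤ Phi ((e : ℝ) / K) (Real.log 2 / (1 - (e : ℝ) / K)) m (dl G K T) := by
  have hK : 0 < K := by omega
  have hK' : (0 : ℝ) < K := by exact_mod_cast hK
  induction m generalizing T with
  | zero => exact h.base he hT
  | succ m ih =>
    show lc F T ≤ Real.log (1 + dl G K T) + Phi _ _ m ((e : ℝ) / K * dl G K T)
    apply h.step hK hT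
    intro C hC
    have h1 : ∀ y ∈ C, lc F (insert y T) ≤
        Phi ((e : ℝ) / K) (Real.log 2 / (1 - (e : ℝ) / K)) m (dl G K (insert y T)) :=
      fun y hy => ih (up_pos hC hy)
    refine (Finset.sum_le_sum h1).trans ?_
    have hcard := h.card C (mem_up.1 hC).1
    have h2 := (Phi_concave (ε := (e : ℝ) / K) (a := Real.log 2 / (1 - (e : ℝ) / K))
      (by positivity) m).le_map_sum (t := C) (w := fun _ => 1 / (K : ℝ))
      (p := fun y => dl G K (insert y T)) (fun _ _ => by positivity)
      (by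
        rw [Finset.sum_const, nsmul_eq_mul, hcard]
        field_simp)
      (fun y hy => h.dl_nonneg hK (up_pos hC hy))
    simp only [smul_eq_mul] at h2
    rw [← Finset.mul_sum, ← Finset.mul_sum, h.sum_dl hK hC] at h2
    have h3 : 1 / (K : ℝ) * (K * ((e : ℝ) / K * dl G K T)) = (e : ℝ) / K * dl G K T := by
      field_simp
    rw [h3, one_div, inv_mul_le_iff₀ hK'] at h2
    exact h2

theorem Phi_eq (ε a : ℝ) (m : ℕ) (x : ℝ) :
    Phi ε a m x = ∑ i ∈ Finset.range m, Real.log (1 + ε ^ i * x) + a * (ε ^ m * x) := by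
  induction m generalizing x with
  | zero => simp [Phi]
  | succ m ih =>
    rw [Finset.sum_range_succ']
    show Real.log (1 + x) + Phi ε a m (ε * x) = _
    rw [ih]
    have h1 : ∀ i, ε ^ i * (ε * x) = ε ^ (i + 1) * x := fun i => by ring
    simp only [h1, pow_zero, one_mul]
    ring

/-- **The entropy bound.** -/
theorem Fam.count (h : Fam G K e F) (he : 2 * e < K) {Q : ℕ}
    (hv : Fintype.card V = K * (Q + 1)) (m : ℕ) :
    (F.card : ℝ) ≤ (∏ i ∈ Finset.range m, (1 + ((e : ℝ) / K) ^ i * Q)) *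
      (2 : ℝ) ^ ((((e : ℝ) / K) ^ m * Q) / (1 - (e : ℝ) / K)) := by
  have hK : 0 < K := by omega
  have hK' : (0 : ℝ) < K := by exact_mod_cast hK
  have hprod : ∀ i, 0 < 1 + ((e : ℝ) / K) ^ i * Q := fun i => by positivity
  by_cases hF : F.card = 0
  · rw [hF, Nat.cast_zero]
    exact mul_nonneg (Finset.prod_nonneg fun i _ => (hprod i).le) (by positivity)
  have h1 : 0 < (up F ∅).card := by
    rw [up_empty]
    omega
  have h2 := h.lc_le he m h1
  have h3 : dl G K (∅ : Finset V) = Q := by
    unfold dl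
    rw [nb_empty, Finset.card_univ, hv]
    push_cast
    field_simp
    ring
  rw [h3, Phi_eq] at h2
  unfold lc at h2
  rw [up_empty] at h2
  have hF' : (0 : ℝ) < F.card := by
    have : 0 < F.card := by omega
    exact_mod_cast this
  rw [← Real.log_prod (fun i _ => (hprod i).ne')] at h2
  have h4 : Real.log 2 / (1 - (e : ℝ) / K) * (((e : ℝ) / K) ^ m * Q) =
      Real.log ((2 : ℝ) ^ ((((e : ℝ) / K) ^ m * Q) / (1 - (e : ℝ) / K))) := by
    rw [Real.log_rpow (by norm_num)]
    ring
  have h5 : 0 < ∏ i ∈ Finset.range m, (1 + ((e : ℝ) / K) ^ i * Q) :=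
    Finset.prod_pos fun i _ => hprod i
  rw [h4, ← Real.log_mul h5.ne' (by positivity)] at h2
  exact (Real.log_le_log_iff hF' (by positivity)).1 h2

end Pool.Agent.DCQ
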