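import Pool.Agent.DCQ.Srg
import Pool.Agent.DCQ.Def

/-!
# Delsarte cliques: the parameters of the symplectic graph
-/

namespace Pool.Agent.DCQ

open Finset Matrix

theorem geo (p t : ℕ) : ∃ e, (p + 1) ^ t = p * e + 1 := by
  induction t with
  | zero => exact ⟨0, by simp⟩
  | succ t ih =>
    obtain ⟨e, he⟩ := ih
    refine ⟨(p + 1) * e + 1, ?_⟩
    rw [pow_succ, he]
    ring

/-- the parameters of the symplectic graph, `q = p + 1`, `d = t + 2` -/
theorem params (p t : ℕ) (hp : 1 ≤ p) : ∃ e : ℕ, 1 ≤ e ∧ (p + 1) ^ (t + 1) = p * e + 1 ∧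
    ((p + 1) ^ (2 * (t + 2)) - 1) / (p + 1 - 1) = ((p + 1) * e + 1) * ((p + 1) * (p * e + 1) + 1) ∧
    (p + 1) * ((p + 1) ^ (2 * (t + 2) - 2) - 1) / (p + 1 - 1) = (p + 1) * (e * (p * e + 2)) ∧
    ((p + 1) ^ 2 * ((p + 1) ^ (2 * (t + 2) - 4) - 1) / (p + 1 - 1) + (p + 1) - 1) + 2 =
      e * (p * e + 2) ∧
    ((p + 1) ^ (2 * (t + 2) - 2) - 1) / (p + 1 - 1) = e * (p * e + 2) := by
  obtain ⟨E, hE⟩ := geo p t
  obtain ⟨e, he⟩ : ∃ e, e = (p + 1) * E + 1 := ⟨_, rfl⟩
  have h1 : (p + 1) ^ (t + 1) = p * e + 1 := by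
    rw [pow_succ, hE, he]
    ring
  have hp0 : 0 < p := hp
  refine ⟨e, by omega, h1, ?_, ?_, ?_, ?_⟩
  · have h2 : (p + 1) ^ (2 * (t + 2)) - 1 =
        p * (((p + 1) * e + 1) * ((p + 1) * (p * e + 1) + 1)) := by
      have h3 : (p + 1) ^ (2 * (t + 2)) = ((p + 1) ^ (t + 1) * (p + 1)) ^ 2 := by ring
      rw [h3, h1]
      apply Nat.sub_eq_of_eq_add
      ring
    rw [h2, Nat.add_sub_cancel, Nat.mul_div_cancel_left _ hp0]
  · have h2 : (p + 1) ^ (2 * (t + 2) - 2) - 1 = p * (e * (p * e + 2)) := by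
      have h3 : (p + 1) ^ (2 * (t + 2) - 2) = ((p + 1) ^ (t + 1)) ^ 2 := by
        rw [← pow_mul]
        congr 1
        omega
      rw [h3, h1]
      apply Nat.sub_eq_of_eq_add
      ring
    rw [h2, Nat.add_sub_cancel, mul_left_comm, Nat.mul_div_cancel_left _ hp0]
  · have h2 : (p + 1) ^ (2 * (t + 2) - 4) - 1 = p * (E * (p * E + 2)) := by
      have h3 : (p + 1) ^ (2 * (t + 2) - 4) = ((p + 1) ^ t) ^ 2 := by
        rw [← pow_mul]
        congr 1
        omega
      rw [h3, hE]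
      apply Nat.sub_eq_of_eq_add
      ring
    rw [h2, Nat.add_sub_cancel, mul_left_comm, Nat.mul_div_cancel_left _ hp0, he,
      ← Nat.add_assoc, Nat.add_sub_cancel]
    ring
  · have h2 : (p + 1) ^ (2 * (t + 2) - 2) - 1 = p * (e * (p * e + 2)) := by
      have h3 : (p + 1) ^ (2 * (t + 2) - 2) = ((p + 1) ^ (t + 1)) ^ 2 := by
        rw [← pow_mul]
        congr 1
        omega
      rw [h3, h1]
      apply Nat.sub_eq_of_eq_add
      ring
    rw [h2, Nat.add_sub_cancel, Nat.mul_div_cancel_left _ hp0]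

variable {V : Type*} [Fintype V] [DecidableEq V]

variable {G : SimpleGraph V} [DecidableRel G.Adj]

/-- the size of a Delsarte clique, and every outside vertex has exactly `e` neighbours in it -/
theorem delsarte {p e k l m : ℕ} (he : 1 ≤ e)
    (hG : G.IsSRGWith (((p + 1) * e + 1) * ((p + 1) * (p * e + 1) + 1)) k l m)
    (hl : l + 2 = m) (hm : m = e * (p * e + 2)) (hk : k = (p + 1) * m) {C : Finset V}
    (hC : IsDelsarteClique G k C) : C.card = (p + 1) * e + 1 ∧
      ∀ w ∉ C, (C.filter (G.Adj w)).card = e := by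
  obtain ⟨hcl, s, hs, hcard⟩ := hC
  have hne : Nonempty V := by
    rw [← Fintype.card_pos_iff, hG.card]
    positivity
  have ha : (k : ℝ) + 1 = ((p : ℝ) * e + 1) ^ 2 + m := by
    rw [hk, hm]
    push_cast
    ring
  have hs1 := least_eq hG hl ((p : ℝ) * e + 1) ha (by
    have : (0 : ℝ) ≤ p * e := by positivity
    linarith) hs
  have hc : C.card = (p + 1) * e + 1 := by
    have h1 : (C.card : ℝ) = (p + 1) * e + 1 := by
      rw [hcard, hs1, hk, hm]
      have h2 : (-1 - ((p : ℝ) * e + 1)) ≠ 0 := by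
        have : (0 : ℝ) ≤ p * e := by positivity
        intro h
        linarith
      push_cast
      field_simp
      ring
    exact_mod_cast h1
  refine ⟨hc, fun w hw => ?_⟩
  exact outside (q := p + 1) hG (by omega) hl (by simpa using hm) hk hcl hc hw

/-- the family of the Delsarte cliques -/
theorem fam {p e k l m : ℕ} (he : 1 ≤ e)
    (hG : G.IsSRGWith (((p + 1) * e + 1) * ((p + 1) * (p * e + 1) + 1)) k l m)
    (hl : l + 2 = m) (hm : m = e * (p * e + 2)) (hk : k = (p + 1) * m) :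
    ∃ F : Finset (Finset V), Fam G ((p + 1) * e + 1) e F ∧
      {C : Finset V | IsDelsarteClique G k C}.ncard = F.card := by
  classical
  refine ⟨Finset.univ.filter fun C => IsDelsarteClique G k C, ⟨?_, ?_, ?_⟩, ?_⟩
  · intro C hC
    exact (Finset.mem_filter.1 hC).2.1
  · intro C hC
    exact (delsarte he hG hl hm hk (Finset.mem_filter.1 hC).2).1
  · intro C hC
    exact (delsarte he hG hl hm hk (Finset.mem_filter.1 hC).2).2
  · rw [← Set.ncard_coe_finset]
    congr 1
    ext C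
    simp

end Pool.Agent.DCQ
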