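import Pool.Agent.DCQ.Ent

/-!
# Delsarte cliques: strongly regular graphs with the parameters of the symplectic graph

`a = (q - 1) e + 1`, `K = q e + 1`, `m = e (a + 1)`, `k = q m`, `l + 2 = m`, `v = K (q a + 1)`.
-/

namespace Pool.Agent.DCQ

open Finset Matrix

variable {V : Type*} [Fintype V] [DecidableEq V]
variable {G : SimpleGraph V} [DecidableRel G.Adj]

/-- the closed adjacency matrix squared -/
theorem sq_closed {v k l m : ℕ} (hG : G.IsSRGWith v k l m) (hl : l + 2 = m) (a : ℝ)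
    (ha : (k : ℝ) + 1 = a ^ 2 + m) :
    (G.adjMatrix ℝ + 1) * (G.adjMatrix ℝ + 1) = a ^ 2 • (1 : Matrix V V ℝ) +
      (m : ℝ) • Matrix.of (fun _ _ => 1) := by
  have h1 := hG.matrix_eq (α := ℝ)
  rw [pow_two, ← Nat.cast_smul_eq_nsmul ℝ k, ← Nat.cast_smul_eq_nsmul ℝ l,
    ← Nat.cast_smul_eq_nsmul ℝ m] at h1
  have h2 : (G.adjMatrix ℝ + 1) * (G.adjMatrix ℝ + 1) =
      G.adjMatrix ℝ * G.adjMatrix ℝ + (2 : ℝ) • G.adjMatrix ℝ + 1 := by
    rw [add_mul, mul_add, mul_one, one_mul, two_smul]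
    abel
  have hl' : (l : ℝ) = m - 2 := by
    have : (l : ℝ) + 2 = m := by exact_mod_cast hl
    linarith
  have hk' : (k : ℝ) = a ^ 2 + m - 1 := by linarith
  rw [h2, h1]
  ext i j
  simp only [Matrix.add_apply, Matrix.smul_apply, Matrix.of_apply, smul_eq_mul,
    SimpleGraph.adjMatrix_apply, SimpleGraph.compl_adj, Matrix.one_apply]
  by_cases h4 : i = j
  · subst h4
    simp
    linarith
  · by_cases h5 : G.Adj i j
    · simp [h4, h5]
      linarith
    · simp [h4, h5]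

/-- the all-ones matrix -/
def JJ (V : Type*) : Matrix V V ℝ := Matrix.of fun _ _ => 1

omit [Fintype V] [DecidableEq V] in
theorem JJ_apply (i j : V) : JJ V i j = 1 := rfl

theorem closed_mul_JJ {v k l m : ℕ} (hG : G.IsSRGWith v k l m) :
    (G.adjMatrix ℝ + 1) * JJ V = ((k : ℝ) + 1) • JJ V := by
  ext i j
  rw [add_mul, one_mul, Matrix.add_apply, Matrix.mul_apply, Matrix.smul_apply, JJ_apply,
    smul_eq_mul, mul_one]
  congr 1
  simp only [JJ_apply, mul_one]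
  have h1 : ∑ x, G.adjMatrix ℝ i x = ∑ x, if G.Adj i x then (1 : ℝ) else 0 := rfl
  rw [h1, ← Finset.sum_filter, Finset.sum_const, nsmul_eq_mul, mul_one]
  have h2 := hG.regular i
  rw [← SimpleGraph.card_neighborFinset_eq_degree] at h2
  rw [← h2]
  congr 2
  ext x
  simp

theorem alg_one {R : Type*} [Ring R] [Algebra ℝ R] (B J : R) (c t m : ℝ)
    (h : B * B = c • (1 : R) + m • J) :
    (B - t • (1 : R)) * (B + t • (1 : R)) = (c - t ^ 2) • (1 : R) + m • J := by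
  rw [sub_mul, mul_add, mul_add, h]
  simp only [smul_mul_assoc, mul_smul_comm, mul_one, one_mul, sub_smul, smul_smul]
  rw [← sq]
  abel

theorem alg_two {R : Type*} [Ring R] [Algebra ℝ R] (B J : R) (c t m : ℝ)
    (h : B * B = c • (1 : R) + m • J) :
    (B + t • (1 : R)) * (B - t • (1 : R)) = (c - t ^ 2) • (1 : R) + m • J := by
  rw [add_mul, mul_sub, mul_sub, h]
  simp only [smul_mul_assoc, mul_smul_comm, mul_one, one_mul, sub_smul, smul_smul]
  rw [← sq]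
  abel

/-- the spectrum -/
theorem spec_mem {v k l m : ℕ} (hG : G.IsSRGWith v k l m) (hl : l + 2 = m) (a : ℝ)
    (ha : (k : ℝ) + 1 = a ^ 2 + m) {θ : ℝ} (hθ : θ ∈ spectrum ℝ (G.adjMatrix ℝ)) :
    θ = k ∨ (θ + 1) ^ 2 = a ^ 2 := by
  by_contra hcon
  push Not at hcon
  obtain ⟨h1, h2⟩ := hcon
  rw [spectrum.mem_iff] at hθ
  apply hθ
  have h3 : (k : ℝ) + 1 - (θ + 1) ≠ 0 := fun h => h1 (by linarith)
  have h4 : a ^ 2 - (θ + 1) ^ 2 ≠ 0 := fun h => h2 (by linarith)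
  have hsq := sq_closed hG hl a ha
  have hJ := closed_mul_JJ hG
  have hmul : (algebraMap ℝ (Matrix V V ℝ) θ - G.adjMatrix ℝ) *
      (-((a ^ 2 - (θ + 1) ^ 2)⁻¹ • ((G.adjMatrix ℝ + 1) + (θ + 1) • (1 : Matrix V V ℝ)) -
        ((a ^ 2 - (θ + 1) ^ 2)⁻¹ * m * ((k : ℝ) + 1 - (θ + 1))⁻¹) • JJ V)) = 1 := by
    have e1 : algebraMap ℝ (Matrix V V ℝ) θ - G.adjMatrix ℝ =
        -((G.adjMatrix ℝ + 1) - (θ + 1) • (1 : Matrix V V ℝ)) := by
      rw [Algebra.algebraMap_eq_smul_one, add_smul, one_smul]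
      abel
    have e2 : ((G.adjMatrix ℝ + 1) - (θ + 1) • (1 : Matrix V V ℝ)) *
        ((G.adjMatrix ℝ + 1) + (θ + 1) • (1 : Matrix V V ℝ)) =
        (a ^ 2 - (θ + 1) ^ 2) • (1 : Matrix V V ℝ) + (m : ℝ) • JJ V :=
      alg_one (G.adjMatrix ℝ + 1) (JJ V) _ _ _ hsq
    have e4 : ((G.adjMatrix ℝ + 1) - (θ + 1) • (1 : Matrix V V ℝ)) * JJ V =
        ((k : ℝ) + 1 - (θ + 1)) • JJ V := by
      rw [sub_mul, hJ, smul_mul_assoc, one_mul, sub_smul]
    rw [e1, neg_mul_neg, mul_sub, mul_smul_comm, mul_smul_comm, e2, e4, smul_add, smul_smul,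
      smul_smul, smul_smul, inv_mul_cancel₀ h4, one_smul]
    have e5 : (a ^ 2 - (θ + 1) ^ 2)⁻¹ * m * ((k : ℝ) + 1 - (θ + 1))⁻¹ * ((k : ℝ) + 1 - (θ + 1)) =
        (a ^ 2 - (θ + 1) ^ 2)⁻¹ * m := by
      rw [mul_assoc, inv_mul_cancel₀ h3, mul_one]
    rw [e5]
    abel
  exact IsUnit.of_mul_eq_one _ hmul

theorem spec_neg [Nonempty V] {v k l m : ℕ} (hG : G.IsSRGWith v k l m) (hl : l + 2 = m) (a : ℝ)
    (ha : (k : ℝ) + 1 = a ^ 2 + m) (ha1 : 1 ≤ a) :
    -1 - a ∈ spectrum ℝ (G.adjMatrix ℝ) := by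
  rw [spectrum.mem_iff]
  intro hu
  have hsq := sq_closed hG hl a ha
  have hJ := closed_mul_JJ hG
  have hk : (0 : ℝ) < (k : ℝ) + 1 + a := by positivity
  have e1 : algebraMap ℝ (Matrix V V ℝ) (-1 - a) - G.adjMatrix ℝ =
      -((G.adjMatrix ℝ + 1) + a • (1 : Matrix V V ℝ)) := by
    rw [Algebra.algebraMap_eq_smul_one, sub_smul, neg_smul, one_smul]
    abel
  have e2 : ((G.adjMatrix ℝ + 1) + a • (1 : Matrix V V ℝ)) *
      ((G.adjMatrix ℝ + 1) - a • (1 : Matrix V V ℝ) - ((m : ℝ) / ((k : ℝ) + 1 + a)) • JJ V) =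
      0 := by
    rw [mul_sub, mul_smul_comm, add_mul _ _ (JJ V), hJ, smul_mul_assoc, one_mul, ← add_smul,
      smul_smul, div_mul_cancel₀ _ hk.ne', alg_two (G.adjMatrix ℝ + 1) (JJ V) _ _ _ hsq, sub_self,
      zero_smul, zero_add, sub_self]
  rw [e1] at hu
  have hu2 : IsUnit ((G.adjMatrix ℝ + 1) + a • (1 : Matrix V V ℝ)) := by
    rw [← IsUnit.neg_iff]
    exact hu
  have e4 : (G.adjMatrix ℝ + 1) - a • (1 : Matrix V V ℝ) -
      ((m : ℝ) / ((k : ℝ) + 1 + a)) • JJ V = 0 := by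
    have := hu2.mul_right_injective
    apply this
    show ((G.adjMatrix ℝ + 1) + a • (1 : Matrix V V ℝ)) * _ = _ * 0
    rw [e2, mul_zero]
  obtain ⟨i⟩ := ‹Nonempty V›
  have e5 := congrFun (congrFun e4 i) i
  simp only [Matrix.sub_apply, Matrix.add_apply, Matrix.smul_apply, Matrix.one_apply_eq,
    SimpleGraph.adjMatrix_apply, JJ_apply, smul_eq_mul, mul_one, Matrix.zero_apply,
    SimpleGraph.irrefl, if_false] at e5
  have hm : (0 : ℝ) < m := by
    have : 0 < m := by omega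
    exact_mod_cast this
  have h6 : 0 < (m : ℝ) / ((k : ℝ) + 1 + a) := by positivity
  linarith

theorem least_eq [Nonempty V] {v k l m : ℕ} (hG : G.IsSRGWith v k l m) (hl : l + 2 = m) (a : ℝ)
    (ha : (k : ℝ) + 1 = a ^ 2 + m) (ha1 : 1 ≤ a) {s : ℝ}
    (hs : IsLeast (spectrum ℝ (G.adjMatrix ℝ)) s) : s = -1 - a := by
  have h1 := hs.2 (spec_neg hG hl a ha ha1)
  have hk : (0 : ℝ) ≤ k := Nat.cast_nonneg k
  rcases spec_mem hG hl a ha hs.1 with h2 | h2
  · linarith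
  · rcases sq_eq_sq_iff_eq_or_eq_neg.1 h2 with h3 | h3
    · linarith
    · linarith

/-- closed adjacency -/
def cl (G : SimpleGraph V) [DecidableRel G.Adj] (i j : V) : ℝ := if i = j ∨ G.Adj i j then 1 else 0

omit [Fintype V] in
theorem cl_eq (i j : V) : (G.adjMatrix ℝ + 1) i j = cl G i j := by
  rw [Matrix.add_apply, SimpleGraph.adjMatrix_apply, Matrix.one_apply, cl]
  by_cases h : i = j
  · subst h
    simp
  · by_cases h' : G.Adj i j
    · simp [h, h']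
    · simp [h, h']

omit [Fintype V] in
theorem cl_symm (i j : V) : cl G i j = cl G j i := by
  unfold cl
  congr 1
  exact propext ⟨fun h => h.elim (fun h => Or.inl h.symm) (fun h => Or.inr h.symm),
    fun h => h.elim (fun h => Or.inl h.symm) (fun h => Or.inr h.symm)⟩

theorem cl_sum {v k l m : ℕ} (hG : G.IsSRGWith v k l m) (y : V) :
    ∑ w, cl G w y = (k : ℝ) + 1 := by
  have h2 := congrFun (congrFun (closed_mul_JJ hG) y) y
  rw [Matrix.mul_apply, Matrix.smul_apply, JJ_apply, smul_eq_mul, mul_one] at h2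
  rw [← h2]
  refine Finset.sum_congr rfl fun w _ => ?_
  rw [JJ_apply, mul_one, cl_eq, cl_symm]

theorem cl_sq {v k l m : ℕ} (hG : G.IsSRGWith v k l m) (hl : l + 2 = m) (a : ℝ)
    (ha : (k : ℝ) + 1 = a ^ 2 + m) (y z : V) :
    ∑ w, cl G y w * cl G w z = a ^ 2 * (if y = z then 1 else 0) + m := by
  have h := congrFun (congrFun (sq_closed hG hl a ha) y) z
  rw [Matrix.mul_apply, Matrix.add_apply, Matrix.smul_apply, Matrix.smul_apply,
    Matrix.of_apply, Matrix.one_apply, smul_eq_mul, smul_eq_mul, mul_one] at h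
  rw [← h]
  refine Finset.sum_congr rfl fun w _ => ?_
  rw [cl_eq, cl_eq]

/-- cliques of the Delsarte size are regular -/
theorem outside {q e k l m : ℕ} (hG : G.IsSRGWith ((q * e + 1) * (q * ((q - 1) * e + 1) + 1)) k l m)
    (hq : 1 ≤ q) (hl : l + 2 = m) (hm : m = e * ((q - 1) * e + 2)) (hk : k = q * m)
    {C : Finset V} (hC : G.IsClique (C : Set V)) (hcard : C.card = q * e + 1) {w : V} (hw : w ∉ C) :
    (C.filter (G.Adj w)).card = e := by
  obtain ⟨p, rfl⟩ : ∃ p, q = p + 1 := ⟨q - 1, by omega⟩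
  rw [Nat.add_sub_cancel] at hG hm
  have ha : (k : ℝ) + 1 = ((p : ℝ) * e + 1) ^ 2 + m := by
    rw [hk, hm]
    push_cast
    ring
  -- sums over all vertices
  have hsum1 : ∑ w, ∑ y ∈ C, cl G w y = ((k : ℝ) + 1) * C.card := by
    rw [Finset.sum_comm]
    have h1 : ∀ y ∈ C, ∑ w, cl G w y = (k : ℝ) + 1 := fun y _ => cl_sum hG y
    rw [Finset.sum_congr rfl h1, Finset.sum_const, nsmul_eq_mul, mul_comm]
  have hsum2 : ∑ w, (∑ y ∈ C, cl G w y) ^ 2 =
      ((p : ℝ) * e + 1) ^ 2 * C.card + m * (C.card * C.card) := by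
    have h1 : ∀ w, (∑ y ∈ C, cl G w y) ^ 2 = ∑ y ∈ C, ∑ z ∈ C, cl G y w * cl G w z := by
      intro w
      rw [sq, Finset.sum_mul_sum]
      refine Finset.sum_congr rfl fun y _ => Finset.sum_congr rfl fun z _ => ?_
      rw [cl_symm w y]
    rw [Finset.sum_congr rfl fun w _ => h1 w, Finset.sum_comm]
    have h2 : ∀ y ∈ C, ∑ w, ∑ z ∈ C, cl G y w * cl G w z =
        ((p : ℝ) * e + 1) ^ 2 + m * C.card := by
      intro y hy
      rw [Finset.sum_comm]
      have h3 : ∀ z ∈ C, ∑ w, cl G y w * cl G w z =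
          ((p : ℝ) * e + 1) ^ 2 * (if y = z then 1 else 0) + m := fun z _ =>
        cl_sq hG hl _ ha y z
      rw [Finset.sum_congr rfl h3, Finset.sum_add_distrib, ← Finset.mul_sum,
        Finset.sum_ite_eq C y, if_pos hy, Finset.sum_const, nsmul_eq_mul]
      ring
    rw [Finset.sum_congr rfl h2, Finset.sum_const, nsmul_eq_mul]
    ring
  have hin : ∀ w ∈ C, ∑ y ∈ C, cl G w y = C.card := by
    intro w hw
    have h1 : ∀ y ∈ C, cl G w y = 1 := by
      intro y hy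
      rw [cl, if_pos]
      by_cases h : w = y
      · exact Or.inl h
      · exact Or.inr (hC hw hy h)
    rw [Finset.sum_congr rfl h1, Finset.sum_const, nsmul_eq_mul, mul_one]
  have hout : ∀ w ∉ C, ∑ y ∈ C, cl G w y = (C.filter (G.Adj w)).card := by
    intro w hw
    have h1 : ∀ y ∈ C, cl G w y = if G.Adj w y then 1 else 0 := by
      intro y hy
      have h : w ≠ y := fun h => hw (h ▸ hy)
      rw [cl]
      congr 1
      exact propext ⟨fun h' => h'.resolve_left h, Or.inr⟩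
    rw [Finset.sum_congr rfl h1, ← Finset.sum_filter, Finset.sum_const, nsmul_eq_mul, mul_one]
  have hv := hG.card
  have hsplit1 := Finset.sum_add_sum_compl C fun w => ∑ y ∈ C, cl G w y
  have hsplit2 := Finset.sum_add_sum_compl C fun w => (∑ y ∈ C, cl G w y) ^ 2
  have hin1 : ∑ w ∈ C, ∑ y ∈ C, cl G w y = (C.card : ℝ) * C.card := by
    rw [Finset.sum_congr rfl hin, Finset.sum_const, nsmul_eq_mul]
  have hin2 : ∑ w ∈ C, (∑ y ∈ C, cl G w y) ^ 2 = (C.card : ℝ) * C.card ^ 2 := by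
    rw [Finset.sum_congr rfl fun w hw => by rw [hin w hw], Finset.sum_const, nsmul_eq_mul]
  have hcompl : ((Cᶜ).card : ℝ) = (((p + 1) * e + 1) * ((p + 1) * (p * e + 1)) : ℝ) := by
    have h1 := Finset.card_add_card_compl C
    rw [hv, hcard] at h1
    have h2 : (Cᶜ).card = ((p + 1) * e + 1) * ((p + 1) * (p * e + 1)) := by
      have h3 : ((p + 1) * e + 1) * ((p + 1) * (p * e + 1) + 1) =
          ((p + 1) * e + 1) * ((p + 1) * (p * e + 1)) + ((p + 1) * e + 1) := by ring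
      omega
    rw [h2]
    push_cast
    ring
  have hzero : ∑ w ∈ Cᶜ, (∑ y ∈ C, cl G w y - e) ^ 2 = 0 := by
    have h1 : ∑ w ∈ Cᶜ, (∑ y ∈ C, cl G w y - e) ^ 2 =
        ∑ w ∈ Cᶜ, (∑ y ∈ C, cl G w y) ^ 2 - 2 * e * ∑ w ∈ Cᶜ, ∑ y ∈ C, cl G w y +
          (Cᶜ).card * e ^ 2 := by
      have h2 : ∀ w ∈ Cᶜ, (∑ y ∈ C, cl G w y - e) ^ 2 =
          (∑ y ∈ C, cl G w y) ^ 2 - 2 * e * ∑ y ∈ C, cl G w y + e ^ 2 := fun w _ => by ring
      rw [Finset.sum_congr rfl h2, Finset.sum_add_distrib, Finset.sum_sub_distrib, Finset.sum_const,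
        nsmul_eq_mul, ← Finset.mul_sum]
    have h3 : ∑ w ∈ Cᶜ, ∑ y ∈ C, cl G w y = ((k : ℝ) + 1) * C.card - C.card * C.card := by
      linarith
    have h4 : ∑ w ∈ Cᶜ, (∑ y ∈ C, cl G w y) ^ 2 = ((p : ℝ) * e + 1) ^ 2 * C.card +
        m * (C.card * C.card) - C.card * C.card ^ 2 := by
      linarith
    rw [h1, h3, h4, hcompl, hcard, hk, hm]
    push_cast
    ring
  have hz := (Finset.sum_eq_zero_iff_of_nonneg (fun w _ => sq_nonneg _)).1 hzero w
    (Finset.mem_compl.2 hw)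
  rw [hout w hw] at hz
  have h5 : ((C.filter (G.Adj w)).card : ℝ) - e = 0 := pow_eq_zero_iff (by norm_num) |>.1 hz
  have h6 : ((C.filter (G.Adj w)).card : ℝ) = e := by linarith
  exact_mod_cast h6

end Pool.Agent.DCQ
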