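import Pool.Agent.DCQ.Par

/-!
# Delsarte cliques: a lemma of Turán type, and the case of rank three
-/

namespace Pool.Agent.DCQ

open Finset

variable {V : Type*} [Fintype V] [DecidableEq V]

omit [Fintype V] in
/-- **The lemma.** -/
theorem turan (b : ℕ) (n : ℕ) : ∀ S : Finset (Finset V), S.card = n →
    (∀ A ∈ S, ∀ B ∈ S, A ≠ B → (A ∩ B).card ≤ b) →
    (∀ A ∈ S, ∀ B ∈ S, ∀ D ∈ S, A ≠ B → (∃ w ∈ A ∩ B, w ∉ D) → (D ∩ (A ∪ B)).card ≤ b) →
    ∑ A ∈ S, A.card ≤ (S.biUnion id).card + b * (n ^ 2 / 4) := by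
  induction n using Nat.strong_induction_on with
  | _ n ih =>
    intro S hS h1 h2
    rcases Nat.lt_or_ge n 2 with hn | hn
    · interval_cases n
      · rw [Finset.card_eq_zero.1 hS]
        simp
      · obtain ⟨A, rfl⟩ := Finset.card_eq_one.1 hS
        simp
    · obtain ⟨r, rfl⟩ : ∃ r, n = r + 2 := ⟨n - 2, by omega⟩
      have hne : S.offDiag.Nonempty := by
        obtain ⟨A, hA, B, hB, hAB⟩ := Finset.one_lt_card.1 (by omega : 1 < S.card)
        exact ⟨(A, B), Finset.mem_offDiag.2 ⟨hA, hB, hAB⟩⟩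
      obtain ⟨⟨A, B⟩, hAB, hmax⟩ := Finset.exists_max_image S.offDiag
        (fun x => (x.1 ∩ x.2).card) hne
      rw [Finset.mem_offDiag] at hAB
      obtain ⟨hA, hB, hne'⟩ := hAB
      simp only at hA hB hne'
      obtain ⟨R, hR⟩ : ∃ R, R = (S.erase A).erase B := ⟨_, rfl⟩
      have hB' : B ∈ S.erase A := Finset.mem_erase.2 ⟨hne'.symm, hB⟩
      have hRc : R.card = r := by
        rw [hR, Finset.card_erase_of_mem hB', Finset.card_erase_of_mem hA, hS]
        omega
      have hRS : ∀ D ∈ R, D ∈ S ∧ D ≠ A ∧ D ≠ B := by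
        intro D hD
        rw [hR, Finset.mem_erase, Finset.mem_erase] at hD
        exact ⟨hD.2.2, hD.2.1, hD.1⟩
      have hih := ih r (by omega) R hRc (fun A' hA' B' hB' => h1 A' (hRS A' hA').1 B' (hRS B' hB').1)
        (fun A' hA' B' hB' D hD => h2 A' (hRS A' hA').1 B' (hRS B' hB').1 D (hRS D hD).1)
      have hsum : ∑ C ∈ S, C.card = A.card + (B.card + ∑ C ∈ R, C.card) := by
        rw [hR, Finset.add_sum_erase _ _ hB', Finset.add_sum_erase _ _ hA]
      have hU : S.biUnion id = (A ∪ B) ∪ R.biUnion id := by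
        ext w
        simp only [Finset.mem_biUnion, Finset.mem_union, id]
        constructor
        · rintro ⟨C, hC, hw⟩
          by_cases hCA : C = A
          · exact Or.inl (Or.inl (hCA ▸ hw))
          · by_cases hCB : C = B
            · exact Or.inl (Or.inr (hCB ▸ hw))
            · refine Or.inr ⟨C, ?_, hw⟩
              rw [hR, Finset.mem_erase, Finset.mem_erase]
              exact ⟨hCB, hCA, hC⟩
        · rintro ((hw | hw) | ⟨C, hC, hw⟩)
          · exact ⟨A, hA, hw⟩
          · exact ⟨B, hB, hw⟩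
          · exact ⟨C, (hRS C hC).1, hw⟩
      have hinter : ((A ∪ B) ∩ R.biUnion id).card ≤ r * b := by
        have h3 : (A ∪ B) ∩ R.biUnion id = R.biUnion fun D => (A ∪ B) ∩ D := by
          ext w
          simp only [Finset.mem_inter, Finset.mem_biUnion, id]
          constructor
          · rintro ⟨hw, C, hC, hwC⟩
            exact ⟨C, hC, hw, hwC⟩
          · rintro ⟨C, hC, hw, hwC⟩
            exact ⟨hw, C, hC, hwC⟩
        rw [h3, ← hRc]
        refine Finset.card_biUnion_le_card_mul R _ b fun D hD => ?_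
        obtain ⟨hDS, hDA, hDB⟩ := hRS D hD
        by_cases hc : ∃ w ∈ A ∩ B, w ∉ D
        · rw [Finset.inter_comm]
          exact h2 A hA B hB D hDS hne' hc
        · push Not at hc
          have h4 : A ∩ B ⊆ A ∩ D := fun w hw =>
            Finset.mem_inter.2 ⟨(Finset.mem_inter.1 hw).1, hc w hw⟩
          have h5 : A ∩ B ⊆ B ∩ D := fun w hw =>
            Finset.mem_inter.2 ⟨(Finset.mem_inter.1 hw).2, hc w hw⟩
          have h6 := hmax (A, D) (Finset.mem_offDiag.2 ⟨hA, hDS, fun h => hDA h.symm⟩)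
          have h7 := hmax (B, D) (Finset.mem_offDiag.2 ⟨hB, hDS, fun h => hDB h.symm⟩)
          have h8 := Finset.eq_of_subset_of_card_le h4 h6
          have h9 := Finset.eq_of_subset_of_card_le h5 h7
          have h10 : (A ∪ B) ∩ D = A ∩ B := by
            rw [Finset.union_inter_distrib_right, ← h8, ← h9, Finset.union_self]
          rw [h10]
          exact h1 A hA B hB hne'
      have h11 := Finset.card_union_add_card_inter A B
      have h12 := h1 A hA B hB hne'
      have h13 := Finset.card_union_add_card_inter (A ∪ B) (R.biUnion id)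
      rw [hsum, hU]
      have h14 : (r + 2) ^ 2 / 4 = r ^ 2 / 4 + (r + 1) := by
        have h15 : (r + 2) ^ 2 = r ^ 2 + 4 * (r + 1) := by ring
        rw [h15, Nat.add_mul_div_left _ _ (by norm_num)]
      rw [h14, Nat.mul_add]
      have h16 : b * (r + 1) = r * b + b := by ring
      omega

variable {G : SimpleGraph V} [DecidableRel G.Adj] {K e : ℕ} {F : Finset (Finset V)}

/-- the number of cliques through an edge -/
theorem Fam.edge_le (h : Fam G K e F) (he : 2 ≤ e) {x y : V} (hxy : G.Adj x y) {L m : ℕ}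
    (hL : (Finset.univ.filter fun w => G.Adj x w ∧ G.Adj y w).card ≤ L)
    (hm : L + (e - 2) * ((m + 1) ^ 2 / 4) < (m + 1) * (K - 2)) :
    (F.filter fun C => x ∈ C ∧ y ∈ C).card ≤ m := by
  by_contra hcon
  push Not at hcon
  obtain ⟨T, hT, hTc⟩ := Finset.exists_subset_card_eq hcon
  have hmem : ∀ C ∈ T, C ∈ F ∧ x ∈ C ∧ y ∈ C := fun C hC => by
    have := hT hC
    rw [Finset.mem_filter] at this
    exact this
  have hxy' : x ≠ y := hxy.ne
  have hsub : ∀ C ∈ T, ({x, y} : Finset V) ⊆ C := by
    intro C hC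
    obtain ⟨_, h2, h3⟩ := hmem C hC
    intro w hw
    rw [Finset.mem_insert, Finset.mem_singleton] at hw
    rcases hw with rfl | rfl
    · exact h2
    · exact h3
  have hpair : ({x, y} : Finset V).card = 2 := Finset.card_pair hxy'
  have hinj : Set.InjOn (fun C : Finset V => C \ {x, y}) (T : Set (Finset V)) := by
    intro C hC D hD hCD
    have h1 := hsub C hC
    have h2 := hsub D hD
    have hCD' : C \ {x, y} = D \ {x, y} := hCD
    rw [← Finset.sdiff_union_of_subset h1, hCD', Finset.sdiff_union_of_subset h2]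
  have hdiff : ∀ X : Finset V, ({x, y} : Finset V) ⊆ X → (X \ {x, y}).card = X.card - 2 := by
    intro X hX
    rw [Finset.card_sdiff_of_subset hX, hpair]
  have hmain := turan (e - 2) (m + 1) (T.image fun C => C \ {x, y})
    (by rw [Finset.card_image_of_injOn hinj, hTc]) (by
      intro A' hA' B' hB' hne
      obtain ⟨A, hA, rfl⟩ := Finset.mem_image.1 hA'
      obtain ⟨B, hB, rfl⟩ := Finset.mem_image.1 hB'
      have hAB : A ≠ B := fun h' => hne (by rw [h'])
      have h1 : (A \ {x, y}) ∩ (B \ {x, y}) = (A ∩ B) \ {x, y} := by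
        ext w
        simp only [Finset.mem_inter, Finset.mem_sdiff]
        tauto
      rw [h1, hdiff _ (Finset.subset_inter (hsub A hA) (hsub B hB))]
      have := h.inter_le (hmem A hA).1 (hmem B hB).1 hAB
      omega) (by
      intro A' hA' B' hB' D' hD' hne hw
      obtain ⟨A, hA, rfl⟩ := Finset.mem_image.1 hA'
      obtain ⟨B, hB, rfl⟩ := Finset.mem_image.1 hB'
      obtain ⟨D, hD, rfl⟩ := Finset.mem_image.1 hD'
      obtain ⟨w, hw1, hw2⟩ := hw
      simp only [Finset.mem_inter, Finset.mem_sdiff] at hw1 hw2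
      have hwD : w ∉ D := fun h' => hw2 ⟨h', hw1.1.2⟩
      have h1 : (D \ {x, y}) ∩ ((A \ {x, y}) ∪ (B \ {x, y})) = (D ∩ (A ∪ B)) \ {x, y} := by
        ext w
        simp only [Finset.mem_inter, Finset.mem_sdiff, Finset.mem_union]
        tauto
      rw [h1, hdiff _ (Finset.subset_inter (hsub D hD)
        ((hsub A hA).trans Finset.subset_union_left))]
      have := h.inter_union_le (hmem D hD).1 (hmem A hA).1 (hmem B hB).1 hw1.1.1 hw1.2.1 hwD
      omega)
  rw [Finset.sum_image hinj] at hmain
  have hsum : ∑ C ∈ T, (C \ {x, y}).card = (m + 1) * (K - 2) := by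
    have h1 : ∀ C ∈ T, (C \ {x, y}).card = K - 2 := by
      intro C hC
      rw [hdiff C (hsub C hC), h.card C (hmem C hC).1]
    rw [Finset.sum_congr rfl h1, Finset.sum_const, smul_eq_mul, hTc]
  rw [hsum] at hmain
  have hunion : ((T.image fun C => C \ {x, y}).biUnion id).card ≤ L := by
    refine (Finset.card_le_card ?_).trans hL
    intro w hw
    obtain ⟨C', hC', hwC⟩ := Finset.mem_biUnion.1 hw
    obtain ⟨C, hC, rfl⟩ := Finset.mem_image.1 hC'
    simp only [id, Finset.mem_sdiff, Finset.mem_insert, Finset.mem_singleton, not_or] at hwC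
    rw [Finset.mem_filter]
    obtain ⟨h1, h2, h3⟩ := hmem C hC
    have hcl := h.clique C h1
    exact ⟨Finset.mem_univ _, hcl h2 hwC.1 (fun h' => hwC.2.1 h'.symm),
      hcl h3 hwC.1 (fun h' => hwC.2.2 h'.symm)⟩
  omega

/-- counting flags edge-clique -/
theorem Fam.edge_count (h : Fam G K e F) {k m : ℕ} (hreg : ∀ x, G.degree x = k)
    (hm : ∀ x y, G.Adj x y → (F.filter fun C => x ∈ C ∧ y ∈ C).card ≤ m) :
    F.card * (K * (K - 1)) ≤ Fintype.card V * k * m := by
  have h1 : ∀ C ∈ F, ∑ x, ∑ y, (if G.Adj x y then (if x ∈ C ∧ y ∈ C then 1 else 0) else 0) =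
      K * (K - 1) := by
    intro C hC
    have h2 : ∀ x, ∑ y, (if G.Adj x y then (if x ∈ C ∧ y ∈ C then 1 else 0) else 0) =
        if x ∈ C then K - 1 else 0 := by
      intro x
      by_cases hx : x ∈ C
      · rw [if_pos hx]
        have h3 : ∀ y, (if G.Adj x y then (if x ∈ C ∧ y ∈ C then 1 else 0) else 0) =
            if y ∈ C.erase x then 1 else 0 := by
          intro y
          by_cases hy : y ∈ C.erase x
          · rw [if_pos hy]
            rw [Finset.mem_erase] at hy
            rw [if_pos (h.clique C hC hx hy.2 (fun h' => hy.1 h'.symm)), if_pos ⟨hx, hy.2⟩]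
          · rw [if_neg hy]
            rw [Finset.mem_erase] at hy
            by_cases hadj : G.Adj x y
            · rw [if_pos hadj, if_neg]
              rintro ⟨_, h4⟩
              exact hy ⟨fun h' => hadj.ne h'.symm, h4⟩
            · rw [if_neg hadj]
        rw [Finset.sum_congr rfl fun y _ => h3 y, ← Finset.card_filter,
          Finset.filter_mem_eq_inter, Finset.univ_inter, Finset.card_erase_of_mem hx,
          h.card C hC]
      · rw [if_neg hx]
        refine Finset.sum_eq_zero fun y _ => ?_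
        rw [if_neg (fun h' : x ∈ C ∧ y ∈ C => hx h'.1)]
        split_ifs <;> rfl
    rw [Finset.sum_congr rfl fun x _ => h2 x, ← Finset.sum_filter, Finset.sum_const,
      Finset.filter_mem_eq_inter, Finset.univ_inter, h.card C hC, smul_eq_mul]
  have h2 : F.card * (K * (K - 1)) =
      ∑ C ∈ F, ∑ x, ∑ y, (if G.Adj x y then (if x ∈ C ∧ y ∈ C then 1 else 0) else 0) := by
    rw [Finset.sum_congr rfl h1, Finset.sum_const, smul_eq_mul]
  have h3 : ∑ C ∈ F, ∑ x, ∑ y, (if G.Adj x y then (if x ∈ C ∧ y ∈ C then 1 else 0) else 0) =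
      ∑ x, ∑ y, ∑ C ∈ F, (if G.Adj x y then (if x ∈ C ∧ y ∈ C then 1 else 0) else 0) := by
    rw [Finset.sum_comm]
    refine Finset.sum_congr rfl fun x _ => ?_
    rw [Finset.sum_comm]
  rw [h2, h3]
  calc ∑ x, ∑ y, ∑ C ∈ F, (if G.Adj x y then (if x ∈ C ∧ y ∈ C then 1 else 0) else 0)
      ≤ ∑ x, ∑ y, (if G.Adj x y then m else 0) := by
        refine Finset.sum_le_sum fun x _ => Finset.sum_le_sum fun y _ => ?_
        by_cases hadj : G.Adj x y
        · simp only [if_pos hadj]
          rw [← Finset.card_filter]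
          exact hm x y hadj
        · simp only [if_neg hadj]
          simp
    _ = ∑ _x : V, k * m := by
        refine Finset.sum_congr rfl fun x _ => ?_
        rw [← Finset.sum_filter, Finset.sum_const, smul_eq_mul, ← hreg x,
          ← SimpleGraph.card_neighborFinset_eq_degree]
        congr 2
        ext y
        simp
    _ = Fintype.card V * k * m := by
        rw [Finset.sum_const, Finset.card_univ, smul_eq_mul, mul_assoc]

end Pool.Agent.DCQ
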